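import Mathlib
import Pool.Agent.H32.Arbor2

namespace Pool.Agent.Results.MP_edc851_co.Hstar

open Finset Pool.Agent.H32.Arbor
open scoped Pointwise

/-- An arbor of size `n`: a rooted tree (parent map) on the blocks of a set partition of `[n]`. -/
structure Arbor (n : ℕ) (V : Type) where
  blk : Fin n → V
  surj : Function.Surjective blk
  root : V
  par : V → V
  par_root : par root = root
  reach : ∀ v, ∃ k, par^[k] v = root

open Classical in
/-- The union of the block `v` with all its descendant blocks. -/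
noncomputable def Dset {n : ℕ} {V : Type} (τ : Arbor n V) (v : V) : Finset (Fin n) :=
  univ.filter fun i => ∃ k, τ.par^[k] (τ.blk i) = v

/-- The arbor polytope. -/
def Q {n : ℕ} {V : Type} (τ : Arbor n V) : Set (Fin n → ℝ) :=
  {x | (∀ i, 0 ≤ x i) ∧ ∀ v, ∑ i ∈ Dset τ v, x i ≤ (Dset τ v).card}

/-- The number of lattice points of the `m`-th dilate. -/
noncomputable def ehr {n : ℕ} {V : Type} (τ : Arbor n V) (m : ℕ) : ℕ :=
  {z : Fin n → ℤ | (fun i => (z i : ℝ)) ∈ (m : ℝ) • Q τ}.ncard

/-- Number of descents of a word. -/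
def des {n : ℕ} (w : Fin n → Fin n) : ℕ :=
  (univ.filter fun i : Fin n => ∃ j : Fin n, j.val = i.val + 1 ∧ w j < w i).card

open Classical in
/-- The words with at least `|D(v)|` letters in `D(v)` for every vertex `v`. -/
noncomputable def W {n : ℕ} {V : Type} (τ : Arbor n V) : Finset (Fin n → Fin n) :=
  univ.filter fun w => ∀ v, (Dset τ v).card ≤ (univ.filter fun j => w j ∈ Dset τ v).card

theorem D_root {n : ℕ} {V : Type} (τ : Arbor n V) : Dset τ τ.root = univ := by
  ext i
  simpa [Dset] using τ.reach _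

theorem mem_dil {n : ℕ} {V : Type} (τ : Arbor n V) (m : ℕ) (x : Fin n → ℝ) :
    x ∈ (m : ℝ) • Q τ ↔ (∀ i, 0 ≤ x i) ∧ ∀ v, ∑ i ∈ Dset τ v, x i ≤ m * (Dset τ v).card := by
  constructor
  · rintro ⟨y, ⟨h1, h2⟩, rfl⟩
    refine ⟨fun i => mul_nonneg (by positivity) (h1 i), fun v => ?_⟩
    simp only [Pi.smul_apply, smul_eq_mul, ← mul_sum]
    exact mul_le_mul_of_nonneg_left (h2 v) (by positivity)
  · rintro ⟨h1, h2⟩
    rcases Nat.eq_zero_or_pos m with rfl | hm
    · refine ⟨0, ⟨fun _ => le_rfl, fun v => by simp⟩, ?_⟩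
      have := h2 τ.root
      rw [D_root] at this
      funext i
      have t := single_le_sum (f := x) (fun j _ => h1 j) (mem_univ i)
      have := h1 i
      simp at *
      linarith
    · have hm' : (0 : ℝ) < m := by exact_mod_cast hm
      refine ⟨(m : ℝ)⁻¹ • x, ⟨fun i => mul_nonneg (by positivity) (h1 i), fun v => ?_⟩, ?_⟩
      · simp only [Pi.smul_apply, smul_eq_mul, ← mul_sum]
        rw [inv_mul_le_iff₀ hm']
        exact h2 v
      · simp [smul_smul, hm'.ne']

theorem ehr_eq {n : ℕ} {V : Type} (τ : Arbor n V) (m : ℕ) :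
    ehr τ m = ∑ w ∈ W τ, (m + 1 + des w).choose n := by
  classical
  have : Finite V := Finite.of_surjective _ τ.surj
  have := Fintype.ofFinite V
  have key := final n m (univ.image (Dset τ)) ?_ ?_ (mem_image.2 ⟨_, mem_univ _, D_root τ⟩)
  · simp only [mem_image, mem_univ, true_and, forall_exists_index, forall_apply_eq_imp_iff] at key
    have e : {z : Fin n → ℤ | (fun i => (z i : ℝ)) ∈ (m : ℝ) • Q τ} =
        (fun (x : Fin n → ℕ) i => (x i : ℤ)) ''
          {x | ∀ v, ∑ i ∈ Dset τ v, x i ≤ m * (Dset τ v).card} := by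
      ext z
      simp only [Set.mem_ofPred_eq, mem_dil, Set.mem_image]
      constructor
      · rintro ⟨h1, h2⟩
        have e : ∀ i, ((z i).toNat : ℤ) = z i := fun i => Int.toNat_of_nonneg (by exact_mod_cast h1 i)
        refine ⟨fun i => (z i).toNat, fun v => ?_, funext e⟩
        have : ∑ i ∈ Dset τ v, z i ≤ m * (Dset τ v).card := by exact_mod_cast h2 v
        zify
        simpa only [e] using this
      · rintro ⟨x, h, rfl⟩
        exact ⟨fun i => by positivity, fun v => by exact_mod_cast h v⟩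
    unfold ehr
    rw [e, Set.ncard_image_of_injective _ (fun a b h => funext fun i => by
      have := congrFun h i
      simpa using this), key]
    refine sum_congr ?_ fun _ _ => rfl
    ext w
    simp [W]
  · intro D hD
    obtain ⟨v, _, rfl⟩ := mem_image.1 hD
    obtain ⟨i, hi⟩ := τ.surj v
    exact ⟨i, by simp only [Dset, mem_filter, mem_univ, true_and]; exact ⟨0, hi⟩⟩
  · intro D hD E hE
    obtain ⟨u, _, rfl⟩ := mem_image.1 hD
    obtain ⟨v, _, rfl⟩ := mem_image.1 hE
    have sub : ∀ (u : V) (t : ℕ), Dset τ u ⊆ Dset τ (τ.par^[t] u) := by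
      intro u t i hi
      simp only [Dset, mem_filter, mem_univ, true_and] at hi ⊢
      obtain ⟨k, rfl⟩ := hi
      exact ⟨t + k, Function.iterate_add_apply _ _ _ _⟩
    by_cases h : Disjoint (Dset τ u) (Dset τ v)
    · exact Or.inr (Or.inr h)
    · obtain ⟨i, h1, h2⟩ := not_disjoint_iff.1 h
      simp only [Dset, mem_filter, mem_univ, true_and] at h1 h2
      obtain ⟨k, rfl⟩ := h1
      obtain ⟨l, rfl⟩ := h2
      rcases le_total k l with h | h
      · obtain ⟨t, rfl⟩ := Nat.exists_eq_add_of_le h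
        rw [add_comm, Function.iterate_add_apply]
        exact Or.inl (sub _ _)
      · obtain ⟨t, rfl⟩ := Nat.exists_eq_add_of_le h
        rw [add_comm, Function.iterate_add_apply]
        exact Or.inr (Or.inl (sub _ _))

theorem result (n : ℕ) (hn : 1 ≤ n) (V : Type) (τ : Arbor n V) :
    (PowerSeries.mk fun m => (ehr τ m : ℤ)) * (1 - PowerSeries.X) ^ (n + 1) =
      ∑ w ∈ W τ, PowerSeries.X ^ (n - 1 - des w) := by
  have e : (PowerSeries.mk fun m => (ehr τ m : ℤ)) = ∑ w ∈ W τ, PowerSeries.X ^ (n - 1 - des w) *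
      (PowerSeries.mk fun m => ((n + m).choose n : ℤ)) := by
    ext m
    rw [PowerSeries.coeff_mk, ehr_eq, map_sum]
    push_cast
    refine sum_congr rfl fun w _ => ?_
    have hd : des w ≤ n - 1 := by
      obtain ⟨r, rfl⟩ : ∃ r, n = r + 1 := ⟨n - 1, by omega⟩
      exact desG_le w
    rw [PowerSeries.coeff_X_pow_mul']
    split_ifs with h
    · rw [PowerSeries.coeff_mk]
      congr 2
      omega
    · rw [Nat.choose_eq_zero_of_lt (by omega)]
      simp
  rw [e, sum_mul]
  refine sum_congr rfl fun w _ => ?_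
  rw [mul_assoc, PowerSeries.mk_add_choose_mul_one_sub_pow_eq_one, mul_one]

end Pool.Agent.Results.MP_edc851_co.Hstar
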